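import Mathlib

/-!
Statements of the modules for problem `MP_cd3d85_an` (frozen statement S06184): there is a Johnson
space with a closed infinite dimensional subspace without a Schauder basis.
-/

set_option autoImplicit false
open Filter Topology MeasureTheory

namespace Pool.Agent.JNB

/-- Euclidean space. -/
abbrev Ev (n : ℕ) : Type := EuclideanSpace ℝ (Fin n)

/-- The `ℓ²`-sum of the spaces `ℓ^{p_n}_{k_n}`. -/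
abbrev XS (k : ℕ → ℕ) (p : ℕ → ENNReal) [∀ n, Fact (1 ≤ p n)] : Type :=
  lp (fun n : ℕ => PiLp (p n) (fun _ : Fin (k n) => ℝ)) 2

/-- Finite dimensional decomposition (as in the frozen statement). -/
def HasFDD (E : Type) [NormedAddCommGroup E] [NormedSpace ℝ E] : Prop :=
  ∃ F : ℕ → Submodule ℝ E, (∀ n, FiniteDimensional ℝ (F n)) ∧
    ∀ x : E, ∃! y : ℕ → E, (∀ n, y n ∈ F n) ∧
      Tendsto (fun N => ∑ i ∈ Finset.range N, y i) atTop (𝓝 x)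

/-- Uniform approximation property (as in the frozen statement). -/
def HasUAP (E : Type) [NormedAddCommGroup E] [NormedSpace ℝ E] : Prop :=
  ∃ (C : ℝ) (f : ℕ → ℕ), ∀ G : Submodule ℝ E, FiniteDimensional ℝ G →
    ∃ T : E →L[ℝ] E, (∀ x ∈ G, T x = x) ∧ ‖T‖ ≤ C ∧
      FiniteDimensional ℝ (LinearMap.range (T : E →ₗ[ℝ] E)) ∧
      Module.finrank ℝ (LinearMap.range (T : E →ₗ[ℝ] E)) ≤ f (Module.finrank ℝ G)

/-- Schauder basis (as in the frozen statement). -/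
def HasBasis (E : Type) [NormedAddCommGroup E] [NormedSpace ℝ E] : Prop :=
  ∃ e : ℕ → E, ∀ x : E, ∃! a : ℕ → ℝ,
    Tendsto (fun N => ∑ i ∈ Finset.range N, a i • e i) atTop (𝓝 x)

/-! ### Part J : FDD and UAP -/

/-- Uniform Hilbertian structure of the tails: every subspace `F` of dimension at most `N` of the
space of vectors vanishing on the first `n` blocks is `4`-complemented and `4`-Hilbertian. -/
def HilbTail (k : ℕ → ℕ) (p : ℕ → ENNReal) [∀ n, Fact (1 ≤ p n)] (n N : ℕ) : Prop :=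
  ∀ F : Submodule ℝ (XS k p), FiniteDimensional ℝ F → Module.finrank ℝ F ≤ N →
    (∀ z ∈ F, ∀ i < n, z i = 0) →
    ∃ (N' : ℕ) (Φ : XS k p →L[ℝ] Ev N') (Ψ : Ev N' →L[ℝ] XS k p),
      ‖Φ‖ ≤ 2 ∧ ‖Ψ‖ ≤ 2 ∧ (∀ y, Ψ y ∈ F) ∧ ∀ f ∈ F, Ψ (Φ f) = f

/-- Cell lemma (one block). -/
def Stmt_Cell : Prop :=
  ∀ (ι J : Type) [Fintype ι] [Fintype J] (κ : ι → J) (w : ι → ℝ) (p : ℝ),
    2 ≤ p → (∀ i, 0 ≤ w i) →
    ∃ c : ι → ℝ, (∀ i, 0 ≤ c i) ∧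
      (∀ z : ι → ℝ, ∑ i, c i * z i ^ 2 ≤
        (Fintype.card J : ℝ) ^ (1 - 2 / p) * (∑ i, |z i| ^ p) ^ (2 / p)) ∧
      (∀ b : J → ℝ, (∑ i, |b (κ i) * w i| ^ p) ^ (2 / p) ≤
        ∑ i, c i * (b (κ i) * w i) ^ 2)

/-- Tails are uniformly Hilbertian, when the exponents are close to `2`. -/
def Stmt_HilbTail : Prop :=
  ∀ N : ℕ, ∃ L : ℝ, 1 ≤ L ∧
    ∀ (k : ℕ → ℕ) (p : ℕ → ENNReal) [∀ n, Fact (1 ≤ p n)] (n : ℕ),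
      (∀ i, n ≤ i → 2 ≤ p i ∧ p i ≠ ⊤ ∧ L ^ (1 / 2 - 1 / (p i).toReal) ≤ 2) →
      HilbTail k p n N

/-- Abstract hypotheses from which FDD and UAP of all closed subspaces follow. -/
def TailProps (X : Type) [NormedAddCommGroup X] [NormedSpace ℝ X]
    (π : ℕ → X →L[ℝ] X) (s N : ℕ → ℕ) : Prop :=
  (∀ n, ‖π n‖ ≤ 1) ∧ (∀ n x, ‖x - π n x‖ ≤ ‖x‖) ∧
  (∀ m n x, π m (π n x) = π (min m n) x) ∧
  (∀ x, Tendsto (fun n => π n x) atTop (𝓝 x)) ∧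
  (∀ n, FiniteDimensional ℝ (LinearMap.range (π n : X →ₗ[ℝ] X)) ∧
    Module.finrank ℝ (LinearMap.range (π n : X →ₗ[ℝ] X)) ≤ s n) ∧
  (∀ φ : X →L[ℝ] ℝ, Tendsto (fun n => ‖φ.comp (ContinuousLinearMap.id ℝ X - π n)‖)
    atTop (𝓝 0)) ∧
  (∀ n, 5 ^ s n ≤ N n) ∧ (∀ n, n ≤ N n) ∧
  (∀ n (F : Submodule ℝ X), FiniteDimensional ℝ F → Module.finrank ℝ F ≤ N n →
    (∀ x ∈ F, π n x = 0) →
    ∃ R : X →L[ℝ] X, ‖R‖ ≤ 4 ∧ (∀ x, R x ∈ F) ∧ ∀ x ∈ F, R x = x)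

/-- Lifting projections. -/
def Stmt_Lift : Prop :=
  ∀ (X : Type) [NormedAddCommGroup X] [NormedSpace ℝ X] [CompleteSpace X]
    (π : ℕ → X →L[ℝ] X) (s N : ℕ → ℕ), TailProps X π s N →
    ∀ E : Submodule ℝ X, IsClosed (E : Set X) → ∀ n : ℕ,
      ∃ P : E →L[ℝ] E, ‖P‖ ≤ 20 ∧ (∀ e : E, π n ((P e : E) : X) = π n (e : X)) ∧
        (∀ e : E, π n (e : X) = 0 → P e = 0) ∧
        FiniteDimensional ℝ (LinearMap.range (P : E →ₗ[ℝ] E)) ∧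
        Module.finrank ℝ (LinearMap.range (P : E →ₗ[ℝ] E)) ≤ s n

/-- Projections fixing a given finite dimensional subspace. -/
def Stmt_Q : Prop :=
  ∀ (X : Type) [NormedAddCommGroup X] [NormedSpace ℝ X] [CompleteSpace X]
    (π : ℕ → X →L[ℝ] X) (s N : ℕ → ℕ), TailProps X π s N →
    ∀ E : Submodule ℝ X, IsClosed (E : Set X) →
    ∀ (n : ℕ) (G : Submodule ℝ E), FiniteDimensional ℝ G → Module.finrank ℝ G ≤ N n →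
      ∃ Q : E →L[ℝ] E, ‖Q‖ ≤ 104 ∧ (∀ e, Q (Q e) = Q e) ∧ (∀ g ∈ G, Q g = g) ∧
        FiniteDimensional ℝ (LinearMap.range (Q : E →ₗ[ℝ] E)) ∧
        Module.finrank ℝ (LinearMap.range (Q : E →ₗ[ℝ] E)) ≤ s n + Module.finrank ℝ G

/-- UAP for all closed subspaces. -/
def Stmt_UAP : Prop :=
  ∀ (X : Type) [NormedAddCommGroup X] [NormedSpace ℝ X] [CompleteSpace X]
    (π : ℕ → X →L[ℝ] X) (s N : ℕ → ℕ), TailProps X π s N →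
    ∀ E : Submodule ℝ X, IsClosed (E : Set X) → HasUAP E

/-- FDD for all closed subspaces. -/
def Stmt_FDD : Prop :=
  ∀ (X : Type) [NormedAddCommGroup X] [NormedSpace ℝ X] [CompleteSpace X]
    (π : ℕ → X →L[ℝ] X) (s N : ℕ → ℕ), TailProps X π s N →
    ∀ E : Submodule ℝ X, IsClosed (E : Set X) → HasFDD E

/-- The block projections of the concrete space. -/
def Stmt_XPi : Prop :=
  ∀ (k : ℕ → ℕ) (p : ℕ → ENNReal) [∀ n, Fact (1 ≤ p n)],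
    ∃ π : ℕ → XS k p →L[ℝ] XS k p,
      (∀ n x i, (π n x) i = if i < n then x i else 0) ∧
      (∀ n, ‖π n‖ ≤ 1) ∧ (∀ n x, ‖x - π n x‖ ≤ ‖x‖) ∧
      (∀ x, Tendsto (fun n => π n x) atTop (𝓝 x)) ∧
      (∀ n, FiniteDimensional ℝ (LinearMap.range (π n : XS k p →ₗ[ℝ] XS k p)) ∧
        Module.finrank ℝ (LinearMap.range (π n : XS k p →ₗ[ℝ] XS k p)) ≤
          ∑ i ∈ Finset.range n, k i) ∧
      (∀ φ : XS k p →L[ℝ] ℝ,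
        Tendsto (fun n => ‖φ.comp (ContinuousLinearMap.id ℝ (XS k p) - π n)‖) atTop (𝓝 0))

/-- If the space is isomorphic to `ℓ²` then all its closed infinite dimensional subspaces have
bases. -/
def Stmt_HilbertBases : Prop :=
  ∀ (X : Type) [NormedAddCommGroup X] [NormedSpace ℝ X],
    Nonempty (X ≃L[ℝ] lp (fun _ : ℕ => ℝ) 2) →
    ∀ E : Submodule ℝ X, IsClosed (E : Set X) → ¬ FiniteDimensional ℝ E → HasBasis E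

/-! ### Part FL : the finite dimensional lemma -/

/-- `ℓ_p` norm of the vector of row evaluations. -/
noncomputable def rowNorm {ι : Type} [Fintype ι] {n : ℕ} (p : ℝ) (r : ι → Ev n) (x : Ev n) : ℝ :=
  (∑ j, |inner ℝ (r j) x| ^ p) ^ (1 / p)

/-- Squared Hilbert-Schmidt norm. -/
noncomputable def hs {a b : ℕ} (S : Ev a →ₗ[ℝ] Ev b) : ℝ :=
  ∑ j, ‖S (EuclideanSpace.single j (1 : ℝ))‖ ^ 2

/-- A compression of a partial sum projection which is excluded. -/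
def Bad {ι : Type} [Fintype ι] {n : ℕ} (C p : ℝ) (r : ι → Ev n) (T : Ev n →ₗ[ℝ] Ev n) : Prop :=
  (∀ x, rowNorm p r (T x) ≤ C * rowNorm p r x) ∧
  |LinearMap.trace ℝ (Ev n) T - n / 2| ≤ n / 8 ∧
  ∃ (N' : ℕ) (R : Ev n →ₗ[ℝ] Ev n) (B : Ev n →ₗ[ℝ] Ev N') (A : Ev N' →ₗ[ℝ] Ev n),
    T - T ∘ₗ T = R + A ∘ₗ B ∧ (∀ x, ‖B x‖ ≤ C * rowNorm p r x) ∧
    (∀ y, rowNorm p r (A y) ≤ C * ‖y‖) ∧
    100 * Module.finrank ℝ (LinearMap.range R) ≤ n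

/-- The finite dimensional lemma. -/
def Stmt_FL : Prop :=
  ∀ C : ℕ, 1 ≤ C → ∃ (A : ℕ) (D : ℝ), ∀ (p : ℝ) (n : ℕ), 2 < p → p ≤ 3 →
    ((A : ℝ) + 1) ^ (p / 2 - 1) ≤ 2 → 1 ≤ n → D ≤ n →
    D ≤ (((A + 1) * n : ℕ) : ℝ) ^ (1 / 2 - 1 / p) →
    ∃ r : Fin ((A + 1) * n) → Ev n,
      (∀ x, (∀ j, inner ℝ (r j) x = 0) → x = 0) ∧
      ∀ T : Ev n →ₗ[ℝ] Ev n, ¬ Bad C p r T

/-- The rows: `g` together with the multiples of the unit vectors. -/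
noncomputable def rows (A n : ℕ) (g : Fin (A * n) → Ev n) : Fin (A * n) ⊕ Fin n → Ev n :=
  Sum.elim g (fun j => (√(((A + 1) * n : ℕ) : ℝ)) • EuclideanSpace.single j (1 : ℝ))

/-- No element of a large subspace is almost an eigenvector. -/
def Far {n : ℕ} (α β : ℝ) (S : Ev n →ₗ[ℝ] Ev n) : Prop :=
  ∀ (t : ℝ) (H : Submodule ℝ (Ev n)), (1 - α) * n ≤ Module.finrank ℝ H →
    ∃ x ∈ H, x ≠ 0 ∧ β * ‖x‖ ≤ ‖S x - t • x‖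

/-- Hilbert-Schmidt norm of the adjoint, and via orthonormal bases. -/
def Stmt_hsBasic : Prop :=
  (∀ (a b : ℕ) (S : Ev a →ₗ[ℝ] Ev b), hs (LinearMap.adjoint S) = hs S) ∧
  (∀ (a b : ℕ) (S : Ev a →ₗ[ℝ] Ev b) (ι : Type) [Fintype ι] (u : OrthonormalBasis ι ℝ (Ev a)),
    hs S = ∑ i, ‖S (u i)‖ ^ 2)

/-- Good subspaces for operators with small Hilbert-Schmidt norm. -/
def Stmt_hsSub : Prop :=
  ∀ (a b : ℕ) (S : Ev a →ₗ[ℝ] Ev b) (h : ℝ) (r : ℕ), 1 ≤ r → hs S ≤ h →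
    ∃ V : Submodule ℝ (Ev a), a ≤ Module.finrank ℝ V + r ∧
      ∀ x ∈ V, r * ‖S x‖ ^ 2 ≤ h * ‖x‖ ^ 2

/-- Hilbert-Schmidt estimates by averaging over signs. -/
def Stmt_Ave : Prop :=
  ∀ (A n : ℕ) (p C : ℝ) (g : Fin (A * n) → Ev n), 2 < p → p ≤ 3 → 1 ≤ C → 1 ≤ n →
    ((A : ℝ) + 1) ^ (p / 2 - 1) ≤ 2 → (∀ i, ‖g i‖ ≤ √(n : ℝ)) →
    (∀ T : Ev n →ₗ[ℝ] Ev n,
      (∀ x, rowNorm p (rows A n g) (T x) ≤ C * rowNorm p (rows A n g) x) →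
      hs T ≤ 9 * C ^ 2 * n) ∧
    (∀ (N' : ℕ) (B : Ev n →ₗ[ℝ] Ev N'),
      (∀ x, ‖B x‖ ≤ C * rowNorm p (rows A n g) x) →
      hs B ≤ 9 * C ^ 2 * (((A + 1) * n : ℕ) : ℝ) ^ (2 / p) * n) ∧
    (∀ (N' : ℕ) (U : Ev N' →ₗ[ℝ] Ev n),
      (∀ y, rowNorm p (rows A n g) (U y) ≤ C * ‖y‖) →
      hs U ≤ C ^ 2 * n / (((A + 1) * n : ℕ) : ℝ))

/-- Duality: rows are mapped by the adjoint to small combinations of rows. -/
def Stmt_Dual : Prop :=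
  ∀ (ι : Type) [Fintype ι] (n : ℕ) (r : ι → Ev n) (p C : ℝ) (T : Ev n →ₗ[ℝ] Ev n),
    1 ≤ p → 0 ≤ C → (∀ x, rowNorm p r (T x) ≤ C * rowNorm p r x) →
    ∀ i, ∃ c : ι → ℝ, ∑ l, |c l| ≤ C * (Fintype.card ι : ℝ) ^ (1 / p) ∧
      LinearMap.adjoint T (r i) = ∑ l, c l • r l

/-- Compressions of projections of half rank are far from scalars. -/
def Stmt_FarClaim : Prop :=
  ∀ (n N' : ℕ) (C : ℝ) (S R : Ev n →ₗ[ℝ] Ev n) (V : Ev n →ₗ[ℝ] Ev N') (U : Ev N' →ₗ[ℝ] Ev n),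
    1 ≤ C → 100 ≤ n → hs S ≤ 9 * C ^ 2 * n →
    |LinearMap.trace ℝ (Ev n) S - n / 2| ≤ n / 8 →
    S - S ∘ₗ S = R + U ∘ₗ V → 100 * Module.finrank ℝ (LinearMap.range R) ≤ n →
    hs U * hs V ≤ ((n : ℝ) / 1000) ^ 2 →
    Far (1 / (2304 * C ^ 2)) (1 / (2400 * C ^ 2)) S

/-- Rounding lemma. -/
def Stmt_Round : Prop :=
  ∀ (ι V : Type) [Fintype ι] [NormedAddCommGroup V] [InnerProductSpace ℝ V]
    (t : ι → ℝ) (a : ι → V),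
    ∃ v : ι → ℤ, (∀ l, |(v l : ℝ) - t l| ≤ 1) ∧
      ‖∑ l, ((v l : ℝ) - t l) • a l‖ ^ 2 ≤ (∑ l, ‖a l‖ ^ 2) / 4

/-- Number of integer points in the `ℓ_1` ball. -/
def Stmt_Count : Prop :=
  ∀ (ι : Type) [Fintype ι] (K : ℝ), 0 < K →
    ∃ F : Finset (ι → ℤ),
      (∀ v : ι → ℤ, ∑ l, |(v l : ℝ)| ≤ K * Fintype.card ι → v ∈ F) ∧
      (F.card : ℝ) ≤ (6 * (K + 1)) ^ Fintype.card ι

/-- Mixing. -/
def Mixing {n : ℕ} (k : ℕ) (b : ℝ) (S : Ev n →ₗ[ℝ] Ev n) : Prop :=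
  ∃ x y : Fin k → Ev n, Orthonormal ℝ (Sum.elim x y) ∧
    (∀ i j, j < i → inner ℝ (S (x j)) (y i) = 0) ∧ (∀ i, b ≤ inner ℝ (S (x i)) (y i))

/-- Operators far from scalars are mixing. -/
def Stmt_Mix : Prop :=
  ∀ (n k : ℕ) (α β : ℝ) (S : Ev n →ₗ[ℝ] Ev n), 0 < β → Far α β S → (6 * k : ℝ) ≤ α * n →
    Mixing k (β / 10) S

/-- Volume of Euclidean balls. -/
def Stmt_BallVol : Prop :=
  (∀ (N : ℕ) (r : ℝ), 1 ≤ N → 0 ≤ r →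
    volume (Metric.closedBall (0 : Ev N) r) ≤ ENNReal.ofReal ((5 * r / √(N : ℝ)) ^ N)) ∧
  (∀ n : ℕ, (2 : ENNReal) ^ n ≤ volume (Metric.closedBall (0 : Ev n) (√(n : ℝ))))

/-- Volume of the bad set. -/
def Stmt_BadVol : Prop :=
  ∀ (n m k : ℕ) (b ρ R : ℝ) (S : Ev n →ₗ[ℝ] Ev n) (I : Finset (Fin m))
    (w : Fin m → Fin m → ℝ) (u : Fin m → Ev n), 0 < b → 0 ≤ ρ → 0 ≤ R → Mixing k b S →
    volume {g : Fin m → Ev n | (∀ i, ‖g i‖ ≤ R) ∧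
        ∀ i ∈ I, ‖S (g i) - (∑ l, w i l • g l) - u i‖ ≤ ρ} ≤
      volume (Metric.closedBall (0 : Ev (n - k)) R) ^ m *
        volume (Metric.closedBall (0 : Ev k) R) ^ (m - I.card) *
        (volume (Metric.closedBall (0 : Ev k) ρ) / ENNReal.ofReal (b ^ k)) ^ I.card

/-- The random lemma. -/
def Stmt_RL : Prop :=
  ∀ (C α β : ℝ), 1 ≤ C → 0 < α → α ≤ 1 → 0 < β → β ≤ 1 →
    ∃ (A : ℕ) (D : ℝ), ∀ (p : ℝ) (n : ℕ), 2 < p → p ≤ 3 → 1 ≤ n → D ≤ n →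
      D ≤ (((A + 1) * n : ℕ) : ℝ) ^ (1 / 2 - 1 / p) →
      ∃ g : Fin (A * n) → Ev n, (∀ i, ‖g i‖ ≤ √(n : ℝ)) ∧
        ∀ S : Ev n →ₗ[ℝ] Ev n, hs S ≤ 9 * C ^ 2 * n → Far α β S →
          ¬ (∀ i : Fin (A * n), ∃ c : Fin (A * n) ⊕ Fin n → ℝ,
            ∑ l, |c l| ≤ C * (((A + 1) * n : ℕ) : ℝ) ^ (1 / p) ∧
            S (g i) = ∑ l, c l • rows A n g l)

/-! ### Part NB : no basis -/

/-- Banach's theorem on the basis constant. -/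
def Stmt_Banach : Prop :=
  ∀ (E : Type) [NormedAddCommGroup E] [NormedSpace ℝ E] [CompleteSpace E], HasBasis E →
    ∃ (C : ℝ) (P : ℕ → E →L[ℝ] E), P 0 = 0 ∧ (∀ N, ‖P N‖ ≤ C) ∧ (∀ N x, P N (P N x) = P N x) ∧
      (∀ x, Tendsto (fun N => P N x) atTop (𝓝 x)) ∧
      ∀ N, ∃ (φ : E →L[ℝ] ℝ) (v : E), ∀ x, P (N + 1) x - P N x = φ x • v

/-- The subspace without basis. -/
def Stmt_NB : Prop :=
  ∀ (n k : ℕ → ℕ) (p : ℕ → ENNReal) [∀ j, Fact (1 ≤ p j)] (r : ∀ j, Fin (k j) → Ev (n j)),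
    (∀ j, p j ≠ ⊤) →
    (∀ j (x : Ev (n j)), (∀ l, inner ℝ (r j l) x = 0) → x = 0) →
    (∀ j, 100 * (∑ i ∈ Finset.range j, k i) ≤ n j) → (∀ j, 16 * (j + 1) ≤ n j) →
    (∀ j, HilbTail k p (j + 1) (n j)) →
    (∀ j (T : Ev (n j) →ₗ[ℝ] Ev (n j)), ¬ Bad ((j : ℝ) + 1) (p j).toReal (r j) T) →
    ∃ E : Submodule ℝ (XS k p), IsClosed (E : Set (XS k p)) ∧ ¬ FiniteDimensional ℝ E ∧
      ¬ HasBasis E

/-- Everything together. -/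
def Stmt_Final : Prop :=
  ∃ (k : ℕ → ℕ) (p : ℕ → ENNReal) (_ : ∀ n, Fact (1 ≤ p n)),
    Tendsto k atTop atTop ∧ Tendsto p atTop (𝓝 2) ∧
    (¬ Nonempty (XS k p ≃L[ℝ] lp (fun _ : ℕ => ℝ) 2)) ∧
    (∀ E : Submodule ℝ (XS k p), IsClosed (E : Set (XS k p)) → HasFDD E ∧ HasUAP E) ∧
    ∃ E : Submodule ℝ (XS k p), IsClosed (E : Set (XS k p)) ∧ ¬ FiniteDimensional ℝ E ∧
      ¬ HasBasis E

end Pool.Agent.JNB
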